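import Pool.Agent.P.MP_ab3ecb_nt.AN.Main

/-!
Let `E 1, …, E n` and `E₀` be elliptic curves over a number field `K`, let `P` be a rational point
of `E₀`, and let `Γ` be a group of rational points of the product of the `E i` that is finite
modulo the group generated by the images of `P` under finitely many algebraic homomorphisms. Let
`S` contain all but finitely many of the finite places of `K`, and let `X` be the closed subvariety
of the product cut out by a set `I` of multihomogeneous forms. There are finitely many cosets in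
`X(K) ∩ Γ` such that every family of points of `X` over the completions at the places of `S` that
is a limit of points of `Γ` is a limit of points of one of these cosets.
-/

namespace Pool.Agent.Results.MP_ab3ecb_nt.AdelicMLEnd

open NumberField IsDedekindDomain Pool.Agent.P.MP_ab3ecb_nt.AN
open Pool.Agent.P.MP_ab3ecb_nt.TK (Pt Loc)
open scoped Classical

theorem result (K : Type) [Field K] [NumberField K] (A₀ B₀ : 𝓞 K)
    (h₀ : 4 * A₀ ^ 3 + 27 * B₀ ^ 2 ≠ 0) (n : ℕ) (A B : Fin n → 𝓞 K)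
    (hD : ∀ i, 4 * A i ^ 3 + 27 * B i ^ 2 ≠ 0) (P : Pt A₀ B₀ K) (s : ℕ)
    (Φ : Fin s → ∀ i, Pt A₀ B₀ K →+ Pt (A i) (B i) K) (hΦ : ∀ j i, Alg (Φ j i))
    (Γ : AddSubgroup (∀ i, Pt (A i) (B i) K))
    (hr : (AddSubgroup.closure (Set.range fun j i => Φ j i P)).relIndex Γ ≠ 0)
    (S : Set (HeightOneSpectrum (𝓞 K))) (hS : Sᶜ.Finite)
    (I : Set (MvPolynomial (Fin n × Fin 3) K))
    (hI : ∀ F ∈ I, ∃ d : Fin n → ℕ, F.IsWeightedHomogeneous (fun s => Pi.single s.1 1) d) :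
    ∃ T : Set (Set (∀ i, Pt (A i) (B i) K)), T.Finite ∧
      (∀ C ∈ T, Cos C ∧ ∀ Q ∈ C, Q ∈ Γ ∧ On I Q) ∧
      ∀ a : ∀ (v : S) (i : Fin n), Loc (A i) (B i) v.1, (∀ v, On I (a v)) → InCl Γ a →
        ∃ C ∈ T, InCl C a := by
  obtain ⟨T, h1, h2, h3⟩ := top h₀ hD P Φ hΦ Γ hr hS hI
  refine ⟨(fun t => {Q | Q - t.1 ∈ t.2}) '' T, h1.image _, ?_, fun a ha hc => ?_⟩
  · rintro _ ⟨t, ht, rfl⟩
    refine ⟨⟨t.1, t.2, rfl⟩, fun Q hQ => ?_⟩
    have := h2 t ht _ hQ
    rwa [add_sub_cancel] at this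
  · obtain ⟨t, ht, h4⟩ := h3 a ha ((clo _ a).1 hc)
    exact ⟨_, ⟨t, ht, rfl⟩, (clo _ a).2 h4⟩

end Pool.Agent.Results.MP_ab3ecb_nt.AdelicMLEnd
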