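import Pool.Agent.P.MP_ab3ecb_nt.Inv.All
import Pool.Agent.P.MP_ab3ecb_nt.Inv.Main

/-!
Let `C` be a curve over a number field `K` with function field `F`, and let `y ^ 2 = f` be a
double cover of `C` with at least five geometric branch points, such that no quadratic branch
point has its residue field inside the residue field of every branch point. Among the everywhere
locally soluble quadratic twists `d y ^ 2 = f` of height at most `X`, all but a proportion
`O((log X) ^ (-c))` have the property that a nonempty Brauer-Manin set forces a rational point,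
and in fact a rational branch point. There are at least a constant times `X / log X` locally
soluble twists as soon as there is one, or `C` has a rational point.
-/

namespace Pool.Agent.Results.MP_ab3ecb_nt.InvTwists

open Filter Asymptotics Pool.Agent.P.MP_ab3ecb_nt Pool.Agent.P.MP_ab3ecb_nt.Inv
open scoped IntermediateField

theorem result (K F : Type) [Field K] [NumberField K] [Field F] [Algebra K F]
    (hF : ∃ x : F, Transcendental K x ∧ FiniteDimensional K⟮x⟯ F)
    (hK : ∀ z : F, IsAlgebraic K z → z ∈ (algebraMap K F).range) (f : F)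
    (B : Set (KPt (algebraMap K F) (algebraMap K (AlgebraicClosure K))))
    (hB : B = {P | Branch f P.O}) (h5 : 5 ≤ B.ncard)
    (hq : ∀ P ∈ B, Module.finrank K (Res P) = 2 → ∃ Q ∈ B, ¬ Res P ≤ Res Q)
    (N : ℕ → ℝ) (hN : ∀ X : ℕ, N X = Cnt (fun d : K =>
      ∃ (E : Type) (_ : Field E) (_ : CharZero E) (j : F →+* E) (y : E),
        IsTw f (algebraMap K F d) j y ∧ Nonempty (KAdelic (j.comp (algebraMap K F)))) X) :
    ((Nonempty (KPt (algebraMap K F) (RingHom.id K)) ∨ ∃ X, N X ≠ 0) →
      (fun X : ℕ => (X : ℝ) / Real.log X) =O[atTop] N) ∧ ∃ c : ℝ, 0 < c ∧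
      (fun X : ℕ => (Cnt (fun d : K =>
        ∃ (E : Type) (_ : Field E) (_ : CharZero E) (j : F →+* E) (y : E),
          IsTw f (algebraMap K F d) j y ∧
          (∃ P : KAdelic (j.comp (algebraMap K F)), KInBM P) ∧
          ¬ (Nonempty (KPt (j.comp (algebraMap K F)) (RingHom.id K)) ∧
            ∃ P : KPt (algebraMap K F) (RingHom.id K), Branch f P.O)) X : ℝ))
        =O[atTop] fun X : ℕ => N X / Real.log X ^ c := by
  subst hB
  obtain rfl : N = _ := funext hN
  exact main_inv all_DOMA all_BASE all_CEDEG all_BD all_KPT all_MODEL all_GOOD all_GEO all_COUNT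
    all_UP all_LOW all_ELS all_CHB all_IX all_PT all_TW all_SEL F hF hK f h5 fun P h1 h2 =>
      (hq P h1 h2).imp fun Q h => ⟨h.1, fun h3 => h.2 (IntermediateField.adjoin.mono _ _ _ h3)⟩

end Pool.Agent.Results.MP_ab3ecb_nt.InvTwists
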