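import Pool.Agent.P.MP_ab3ecb_nt.IK.All

/-!
Let `K` be a number field with a fixed real embedding, `E` the elliptic curve
`y ^ 2 = x ^ 3 + A x + B` over `K`, `Γ` a group of points of `E` over `K` of rank at most one, `F`
a polynomial in `x` and `y` which is not negative at the real points of `E` in the other real
embeddings, `S` a set containing all but finitely many finite places, `p, q` two places of `S`
of different residue characteristics, `n` a positive integer and `Q` a point of `Γ`. There are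
neighbourhoods of `Q` at `p` and `q` with the following property. Let `a` be a family of points of
`E` over the completions at the places of `S` which is a limit of points of `Γ` on whose real
component `F` takes a negative value, and at which the values of `F` are squares. If `n a` lies in
the two neighbourhoods, then `a` is the diagonal image of a point `R` of `Γ` with `n R = Q` at
which the value of `F` is a square in `K`.
-/

namespace Pool.Agent.Results.MP_ab3ecb_nt.Isolated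

open Pool.Agent.P.MP_ab3ecb_nt.TK (Pt co Neg Oth IsSq Loc loc InCl)
open NumberField IsDedekindDomain Topology
open scoped Classical

theorem result (K : Type) [Field K] [NumberField K] [Algebra K ℝ] (A B : 𝓞 K)
    (hD : 4 * A ^ 3 + 27 * B ^ 2 ≠ 0) (Γ : AddSubgroup (Pt A B K))
    (hΓ : ∃ P : Γ, (AddSubgroup.zmultiples P).FiniteIndex) (F : MvPolynomial (Fin 2) (𝓞 K))
    (hO : Oth A B F) (S : Set (HeightOneSpectrum (𝓞 K))) (hS : Sᶜ.Finite) (p q : S)
    (hpq : p.1.asIdeal.under ℤ ≠ q.1.asIdeal.under ℤ) (n : ℕ) (hn : n ≠ 0)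
    (Q : Pt A B K) (hQ : Q ∈ Γ) :
    ∃ U ∈ 𝓝 (co (loc p.1 Q)), ∃ V ∈ 𝓝 (co (loc q.1 Q)),
      ∀ a : ∀ v : S, Loc A B v.1, InCl {R | R ∈ Γ ∧ Neg F R} a → (∀ v, IsSq F (a v)) →
        co (n • a p) ∈ U → co (n • a q) ∈ V →
        ∃ R ∈ Γ, n • R = Q ∧ (∀ v, a v = loc v.1 R) ∧ IsSq F R := by
  obtain ⟨_, _⟩ := P.MP_ab3ecb_nt.TK.a_CMP K
  obtain ⟨c, hc, h⟩ := P.MP_ab3ecb_nt.IK.a_TOP A B Γ F S p q n Q hD hΓ hS hO hpq hn hQ
  have nb : ∀ v : S, ∃ U ∈ 𝓝 (co (loc v.1 Q)), ∀ T : Loc A B v.1, co T ∈ U → P.MP_ab3ecb_nt.TK.Sm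
      (NormedField.valuation (K := P.MP_ab3ecb_nt.TK.Kv v.1)) c (T - loc v.1 Q) := fun v => by
    have := P.MP_ab3ecb_nt.TK.a_PROP v.1
    have h1 := ((P.MP_ab3ecb_nt.TK.a_CO A B (P.MP_ab3ecb_nt.TK.Kv v.1) _ _ (fun T => T)
      (loc v.1 Q)).1 Filter.tendsto_comap).2
    exact ⟨_, Filter.eventually_comap.1 ((P.MP_ab3ecb_nt.TK.a_TS A B _ _ _ _).1 h1 c hc),
      fun T hT => hT T rfl⟩
  choose U hU hU' using nb
  refine ⟨U p, hU p, U q, hU q, fun a ha hF hp hq => ?_⟩
  have h1 : ∀ v, a v ≠ 0 → IsSquare (P.MP_ab3ecb_nt.TK.ev F (a v)) := fun v h => by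
    obtain ⟨h', e⟩ := P.MP_ab3ecb_nt.TK.eq_some h
    exact hF v _ _ h' e
  obtain ⟨R, hR, e0, e⟩ := h a ha h1 (by
    rintro v (rfl | rfl)
    exacts [hU' _ _ hp, hU' _ _ hq])
  refine ⟨R, hR, e0, e, fun x y h e' => ?_⟩
  have h0 : R ≠ 0 := e' ▸ WeierstrassCurve.Affine.Point.some_ne_zero h
  have h2 := P.MP_ab3ecb_nt.TK.a_RAT A B F S R hS h0 fun v => by
    rw [← e v]
    refine h1 v ?_
    rw [e v]
    exact mt P.MP_ab3ecb_nt.TK.bc_eq_zero.1 h0
  rw [e'] at h2
  exact h2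

end Pool.Agent.Results.MP_ab3ecb_nt.Isolated
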